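import Pool.Agent.Q260.AH.Dg

set_option autoImplicit false

/-!
# Job GW-TKg of project GW: from `κ` to `T`
-/

namespace Pool.Agent.Q65.AH

open MeasureTheory Filter Topology Set Pool.Agent.Q260.AH
open Pool.Agent.Q260.GM (LL kk Dl L2psi SS SS_nonneg Dl_sq_int SS_bdd ev_pos ev_L kT kT_pos exp_kT exp_change LL_kT
  kT_tendsto norm_lim ph)
open Pool.Agent.Q213.GM (Dl_meas)

/-- a weight is bounded by a multiple of `exp (-2 α)` -/
theorem wok_bdd {w : ℝ → ℝ} {R : ℝ} (hW : Wok w R) :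
    ∃ B : ℝ, 0 < B ∧ ∀ α : ℝ, 0 ≤ α → |w α| ≤ B * Real.exp (-(2 * α)) := by
  obtain ⟨M, hM⟩ := isCompact_Icc.exists_bound_of_continuousOn (s := Icc (0 : ℝ) R) hW.2.1.continuousOn
  refine ⟨(|M| + 1) * Real.exp (2 * R), by positivity, fun α hα => ?_⟩
  rcases le_or_gt α R with h | h
  · have h1 : |w α| ≤ |M| + 1 := by
      have := hM α ⟨hα, h⟩
      rw [Real.norm_eq_abs] at this
      linarith [le_abs_self M]
    have h2 : (1 : ℝ) ≤ Real.exp (2 * R) * Real.exp (-(2 * α)) := by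
      rw [← Real.exp_add]
      exact Real.one_le_exp (by linarith)
    calc |w α| ≤ (|M| + 1) * 1 := by linarith
      _ ≤ (|M| + 1) * (Real.exp (2 * R) * Real.exp (-(2 * α))) := mul_le_mul_of_nonneg_left h2 (by positivity)
      _ = _ := by ring
  · rw [hW.2.2 α h.le, abs_zero]
    positivity

/-- integrability of the weighted square -/
theorem wD_int (hL2 : L2psi) {w : ℝ → ℝ} {R B : ℝ} (hW : Wok w R)
    (hB : ∀ α : ℝ, 0 ≤ α → |w α| ≤ B * Real.exp (-(2 * α))) {κ Λ : ℝ} (hκ : 0 < κ) (hΛ : 0 < Λ) :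
    IntegrableOn (fun u => w (u / Λ) * Dl κ u ^ 2) (Ioi 0) ∧
    |∫ u in Ioi (0 : ℝ), w (u / Λ) * Dl κ u ^ 2| ≤ B * SS κ (1 / Λ) := by
  have hi1 : IntegrableOn (fun u => Dl κ u ^ 2 * Real.exp (-(2 * (1 / Λ) * u))) (Ioi 0) :=
    Dl_sq_int hL2 hκ (by positivity)
  have hb : ∀ u ∈ Ioi (0 : ℝ), |w (u / Λ) * Dl κ u ^ 2| ≤ B * (Dl κ u ^ 2 * Real.exp (-(2 * (1 / Λ) * u))) := by
    intro u hu
    have h1 := hB (u / Λ) (div_nonneg (le_of_lt hu) hΛ.le)
    rw [abs_mul, abs_of_nonneg (sq_nonneg (Dl κ u)), show B * (Dl κ u ^ 2 * Real.exp (-(2 * (1 / Λ) * u))) =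
      B * Real.exp (-(2 * (u / Λ))) * Dl κ u ^ 2 by rw [show 2 * (1 / Λ) * u = 2 * (u / Λ) by ring]; ring]
    exact mul_le_mul_of_nonneg_right h1 (sq_nonneg _)
  have hm : Measurable fun u => w (u / Λ) * Dl κ u ^ 2 :=
    (hW.2.1.measurable.comp (measurable_id.div_const _)).mul ((Dl_meas κ).pow_const 2)
  have hi : IntegrableOn (fun u => w (u / Λ) * Dl κ u ^ 2) (Ioi 0) := by
    refine (hi1.const_mul B).mono' hm.aestronglyMeasurable ?_
    refine (ae_restrict_iff' measurableSet_Ioi).2 (ae_of_all _ fun u hu => ?_)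
    rw [Real.norm_eq_abs]
    exact hb u hu
  refine ⟨hi, ?_⟩
  have e3 : B * SS κ (1 / Λ) = ∫ u in Ioi (0 : ℝ), B * (Dl κ u ^ 2 * Real.exp (-(2 * (1 / Λ) * u))) := by
    rw [integral_const_mul]
    rfl
  rw [e3]
  refine (abs_integral_le_integral_abs).trans ?_
  exact setIntegral_mono_on hi.abs (hi1.const_mul B) measurableSet_Ioi hb

/-- the functional in logarithmic variables -/
theorem WTg_eq {w : ℝ → ℝ} {R : ℝ} (hW : Wok w R) {T : ℝ} (hT : 1 ≤ T) (hl : 0 < Real.log T) :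
    WTg w R T = T / Real.log T ^ 2 * ∫ u in Ioi (0 : ℝ), w (u / Real.log T) * Dl (kT T) u ^ 2 := by
  have hTp : 0 < T := by linarith
  have hB : 0 ≤ Real.log T * R := mul_nonneg hl.le hW.1.le
  unfold WTg
  congr 1
  have e0 : (1 : ℝ) = Real.exp 0 := Real.exp_zero.symm
  rw [Real.rpow_def_of_pos hTp]
  nth_rewrite 1 [e0]
  rw [exp_change _ hB]
  have e1 : ∀ u : ℝ, Real.exp u * (w (Real.log (Real.exp u) / Real.log T) *
      ((Chebyshev.psi (Real.exp u + Real.exp u / T) - Chebyshev.psi (Real.exp u) -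
      Real.exp u / T) ^ 2 / Real.exp u ^ 2)) = w (u / Real.log T) * Dl (kT T) u ^ 2 := by
    intro u
    have e1 : Real.exp (u + kT T) = Real.exp u + Real.exp u / T := by
      rw [Real.exp_add, exp_kT hTp]; ring
    unfold Dl ph
    have e2 : Real.exp (-(u / 2)) ^ 2 = (Real.exp u)⁻¹ := by
      rw [← Real.exp_nat_mul, ← Real.exp_neg]; congr 1; push_cast; ring
    rw [e1, mul_pow, e2, Real.log_exp]
    have hne := (Real.exp_pos u).ne'
    field_simp
    ring
  simp only [e1]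
  rw [intervalIntegral.integral_of_le hB]
  refine (setIntegral_eq_of_subset_of_forall_diff_eq_zero measurableSet_Ioi Ioc_subset_Ioi_self ?_).symm
  rintro u ⟨hu0, hu1⟩
  have h2 : Real.log T * R < u := by
    by_contra h
    exact hu1 ⟨hu0, not_lt.1 h⟩
  have h3 : R ≤ u / Real.log T := by
    rw [le_div_iff₀ hl]
    linarith [mul_comm (Real.log T) R]
  rw [hW.2.2 _ h3, zero_mul]

/-- the change of the scale in the weight -/
theorem w_scale {w : ℝ → ℝ} {R : ℝ} (hW : Wok w R) {θ : ℝ} (hθ : 0 < θ) : ∀ᶠ T : ℝ in atTop, ∀ u : ℝ, 0 < u →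
    |w (u / Real.log T) - w (u / LL (kT T))| ≤ θ * Real.exp (-(2 * (1 / LL (kT T)) * u)) := by
  have hR := hW.1
  have huc := (isCompact_Icc (a := (0 : ℝ)) (b := 2 * R)).uniformContinuousOn_of_continuous
    (f := w) hW.2.1.continuousOn
  rw [Metric.uniformContinuousOn_iff] at huc
  obtain ⟨d, hd, hdd⟩ := huc (θ * Real.exp (-(2 * R))) (by positivity)
  filter_upwards [eventually_ge_atTop (1 : ℝ), Real.tendsto_log_atTop.eventually_ge_atTop (max 1 (2 * R / d))]
    with T hT hlog u hu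
  have hl1 : 1 ≤ Real.log T := (le_max_left _ _).trans hlog
  have hl2 : 2 * R / d ≤ Real.log T := (le_max_right _ _).trans hlog
  have hl : 0 < Real.log T := by linarith
  obtain ⟨h1, h2⟩ := LL_kT hT
  have h3 : 1 / T ≤ 1 := by rw [div_le_one (by linarith)]; exact hT
  have hL : 0 < LL (kT T) := by linarith
  rcases le_or_gt u (R * LL (kT T)) with h | h
  · have ha0 : 0 ≤ u / LL (kT T) := by positivity
    have ha1 : u / LL (kT T) ≤ R := by rw [div_le_iff₀ hL]; exact h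
    have hb0 : 0 ≤ u / Real.log T := by positivity
    have hab : u / Real.log T - u / LL (kT T) = u / LL (kT T) * ((LL (kT T) - Real.log T) / Real.log T) := by
      field_simp
    have hq0 : 0 ≤ (LL (kT T) - Real.log T) / Real.log T := div_nonneg (by linarith) hl.le
    have hq1 : (LL (kT T) - Real.log T) / Real.log T ≤ 1 / Real.log T :=
      div_le_div_of_nonneg_right (by linarith) hl.le
    have hq2 : 1 / Real.log T ≤ 1 := by rw [div_le_one hl]; exact hl1
    have hd1 : u / Real.log T - u / LL (kT T) ≤ R * (1 / Real.log T) := by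
      rw [hab]
      exact mul_le_mul ha1 hq1 hq0 hR.le
    have hd0 : 0 ≤ u / Real.log T - u / LL (kT T) := by
      rw [hab]; positivity
    have hb1 : u / Real.log T ≤ 2 * R := by nlinarith
    have hd2 : R * (1 / Real.log T) < d := by
      rw [mul_one_div, div_lt_iff₀ hl]
      rw [div_le_iff₀ hd] at hl2
      nlinarith
    have h4 := hdd (u / Real.log T) ⟨hb0, hb1⟩ (u / LL (kT T)) ⟨ha0, by linarith⟩ (by
      rw [Real.dist_eq, abs_of_nonneg hd0]
      linarith)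
    rw [Real.dist_eq] at h4
    refine h4.le.trans ?_
    apply mul_le_mul_of_nonneg_left _ hθ.le
    apply Real.exp_le_exp.2
    have : 2 * (1 / LL (kT T)) * u = 2 * (u / LL (kT T)) := by ring
    rw [this]
    linarith
  · have h4 : R ≤ u / LL (kT T) := by rw [le_div_iff₀ hL]; exact h.le
    have h5 : R ≤ u / Real.log T := by
      rw [le_div_iff₀ hl]
      nlinarith
    rw [hW.2.2 _ h4, hW.2.2 _ h5, sub_zero, abs_zero]
    positivity

theorem t_TKg : S_TKg := by
  intro hRH hL2 w R hW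
  obtain ⟨B, hB, hwB⟩ := wok_bdd hW
  obtain ⟨C, hC, hS⟩ := SS_bdd hRH hL2 (a1 := 1) (a2 := 1) one_pos le_rfl (lam := 1) one_pos
  rw [Metric.tendsto_nhds]
  intro ε hε
  have hθ : 0 < ε / (8 * C) := by positivity
  have hn := norm_lim
  rw [Metric.tendsto_nhds] at hn
  have hm : 0 < min 1 (ε / (4 * (B * C))) := by positivity
  filter_upwards [w_scale hW hθ, kT_tendsto.eventually hS, hn _ hm, eventually_ge_atTop (1 : ℝ),
    Real.tendsto_log_atTop.eventually_ge_atTop (1 : ℝ)] with T h1 h2 h3 hT hl1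
  have hl : 0 < Real.log T := by linarith
  have hTp : 0 < T := by linarith
  have hκ := kT_pos hTp
  have hL : 0 < LL (kT T) := by linarith [(LL_kT hT).1]
  have h2' := h2 1 ⟨le_rfl, le_rfl⟩
  rw [one_mul] at h2'
  obtain ⟨i1, -⟩ := wD_int hL2 hW hwB hκ hl
  obtain ⟨i2, b2⟩ := wD_int hL2 hW hwB hκ hL
  have hi1 : IntegrableOn (fun u => Dl (kT T) u ^ 2 * Real.exp (-(2 * (1 / LL (kT T)) * u))) (Ioi 0) :=
    Dl_sq_int hL2 hκ (by positivity)
  set Q : ℝ := kT T * LL (kT T) ^ 2 with hQ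
  have hQ0 : 0 < Q := by positivity
  set I1 : ℝ := ∫ u in Ioi (0 : ℝ), w (u / Real.log T) * Dl (kT T) u ^ 2 with hI1
  have b2' : |WVg w (kT T)| ≤ B * C * Q := by
    calc |WVg w (kT T)| ≤ B * SS (kT T) (1 / LL (kT T)) := b2
      _ ≤ B * (C * Q) := mul_le_mul_of_nonneg_left h2' hB.le
      _ = _ := by ring
  have b3 : |I1 - WVg w (kT T)| ≤ ε / 8 * Q := by
    have e : I1 - WVg w (kT T) = ∫ u in Ioi (0 : ℝ), (w (u / Real.log T) * Dl (kT T) u ^ 2 -
        w (u / LL (kT T)) * Dl (kT T) u ^ 2) := by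
      rw [integral_sub i1 i2]
      rfl
    rw [e]
    refine (abs_integral_le_integral_abs).trans ?_
    calc ∫ u in Ioi (0 : ℝ), |w (u / Real.log T) * Dl (kT T) u ^ 2 - w (u / LL (kT T)) * Dl (kT T) u ^ 2| ≤
        ∫ u in Ioi (0 : ℝ), ε / (8 * C) * (Dl (kT T) u ^ 2 * Real.exp (-(2 * (1 / LL (kT T)) * u))) := by
          refine setIntegral_mono_on (i1.sub i2).abs (hi1.const_mul _) measurableSet_Ioi fun u hu => ?_
          rw [← sub_mul, abs_mul, abs_of_nonneg (sq_nonneg (Dl (kT T) u))]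
          calc |w (u / Real.log T) - w (u / LL (kT T))| * Dl (kT T) u ^ 2 ≤
              ε / (8 * C) * Real.exp (-(2 * (1 / LL (kT T)) * u)) * Dl (kT T) u ^ 2 :=
                mul_le_mul_of_nonneg_right (h1 u hu) (sq_nonneg _)
            _ = _ := by ring
      _ = ε / (8 * C) * SS (kT T) (1 / LL (kT T)) := by rw [integral_const_mul]; rfl
      _ ≤ ε / (8 * C) * (C * Q) := mul_le_mul_of_nonneg_left h2' hθ.le
      _ = ε / 8 * Q := by field_simp
  rw [Real.dist_eq] at h3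
  have h4 : |T / Real.log T ^ 2 * Q - 1| < 1 := h3.trans_le (min_le_left _ _)
  have h5 : |T / Real.log T ^ 2 * Q - 1| < ε / (4 * (B * C)) := h3.trans_le (min_le_right _ _)
  rw [WTg_eq hW hT hl, Real.dist_eq, sub_zero, ← hI1]
  set n : ℝ := T / Real.log T ^ 2 * Q with hn'
  have hn2 : |n| ≤ 2 := by
    have := abs_lt.1 h4
    rw [abs_le]
    constructor <;> linarith
  have e5 : T / Real.log T ^ 2 * I1 - WVg w (kT T) / Q = n * ((I1 - WVg w (kT T)) / Q) +
      (n - 1) * (WVg w (kT T) / Q) := by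
    rw [hn']
    field_simp
    ring
  rw [e5]
  have h6 : |(I1 - WVg w (kT T)) / Q| ≤ ε / 8 := by
    rw [abs_div, abs_of_pos hQ0, div_le_iff₀ hQ0]
    exact b3
  have h7 : |WVg w (kT T) / Q| ≤ B * C := by
    rw [abs_div, abs_of_pos hQ0, div_le_iff₀ hQ0]
    exact b2'
  have h8 : |n * ((I1 - WVg w (kT T)) / Q)| ≤ 2 * (ε / 8) := by
    rw [abs_mul]
    exact mul_le_mul hn2 h6 (abs_nonneg _) (by norm_num)
  have h9 : |(n - 1) * (WVg w (kT T) / Q)| ≤ ε / (4 * (B * C)) * (B * C) := by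
    rw [abs_mul]
    exact mul_le_mul h5.le h7 (abs_nonneg _) (by positivity)
  have h10 : ε / (4 * (B * C)) * (B * C) = ε / 4 := by field_simp
  rw [h10] at h9
  have h11 := abs_add_le (n * ((I1 - WVg w (kT T)) / Q)) ((n - 1) * (WVg w (kT T) / Q))
  linarith

end Pool.Agent.Q65.AH
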