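import Pool.Agent.Q260.AH.Dg

set_option autoImplicit false

/-!
# Job GW-UPPg of project GW: the upper bound along a filter
-/

namespace Pool.Agent.Q65.AH

open MeasureTheory Filter Topology Set Pool.Agent.Q260.AH
open Pool.Agent.Q260.GM (gd gd_nonneg LL kk Dl L2psi ev_gen ev_pos ev_L ev_le kk_le kk_nonneg
  kk_cont gd_integrable kk_one_int)

open Classical in
theorem t_UPPg (h1 : S_WAg) (h2 : S_RS) (h3 : S_GBg) (h4 : S_WPg) : S_UPPg := by
  intro hRH hL2 w R cc η l hW hl hη hBX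
  obtain ⟨C, hC, hWP⟩ := h4 hRH hL2
  obtain ⟨C1, hC1, hgen1⟩ := ev_gen hRH (a1 := 1) (a2 := 1) one_pos le_rfl
  have hpi := Real.pi_pos
  set D : ℝ := C + 10 * C1 + Real.pi with hD
  have hD0 : 0 < D := by positivity
  set ε : ℝ := min 1 (η / (8 * D)) with hε'
  have hε : 0 < ε := by positivity
  have hε1 : ε ≤ 1 := min_le_left _ _
  have hεD : ε * D ≤ η / 8 := by
    have : ε ≤ η / (8 * D) := min_le_right _ _
    rw [le_div_iff₀ (by positivity)] at this
    linarith
  obtain ⟨N, c, hA⟩ := h1 w R ε hW hε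
  have hN1 : (1 : ℝ) ≤ (N : ℝ) + 1 := by
    have : (0 : ℝ) ≤ N := Nat.cast_nonneg N
    linarith
  obtain ⟨C2, hC2, hgen2⟩ := ev_gen hRH (a1 := 1) (a2 := (N : ℝ) + 1) one_pos hN1
  set S : ℝ := ∑ k ∈ Finset.range N, |c k| with hS
  have hS0 : 0 ≤ S := Finset.sum_nonneg fun k _ => abs_nonneg _
  set c0 : ℝ := cc - w 0 / 4 with hc0
  -- the choice of `A`
  obtain ⟨A, hA1, hAt, hAk⟩ : ∃ A : ℝ, 1 ≤ A ∧ 5 * S * C2 * (1 / (1 + A)) ≤ η / 16 ∧
      |c0| * |Real.pi - ∫ y in (0 : ℝ)..A, kk 1 y| ≤ η / 16 := by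
    have t1 : Tendsto (fun A : ℝ => 5 * S * C2 * (1 / (1 + A))) atTop (𝓝 (5 * S * C2 * 0)) :=
      ((tendsto_const_nhds (x := (1 : ℝ))).div_atTop
        (tendsto_atTop_add_const_left _ 1 tendsto_id)).const_mul _
    rw [mul_zero] at t1
    have t2 : Tendsto (fun A : ℝ => ∫ y in (0 : ℝ)..A, kk 1 y) atTop (𝓝 Real.pi) := by
      have := intervalIntegral_tendsto_integral_Ioi 0 kk_one_int.1 tendsto_id
      rwa [kk_one_int.2] at this
    have t3 : Tendsto (fun A : ℝ => |c0| * |Real.pi - ∫ y in (0 : ℝ)..A, kk 1 y|) atTop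
        (𝓝 (|c0| * |Real.pi - Real.pi|)) := ((tendsto_const_nhds.sub t2).abs).const_mul _
    rw [sub_self, abs_zero, mul_zero] at t3
    have hη16 : 0 < η / 16 := by positivity
    obtain ⟨A, hA⟩ := ((eventually_ge_atTop (1 : ℝ)).and ((t1.eventually (ge_mem_nhds hη16)).and
      (t3.eventually (ge_mem_nhds hη16)))).exists
    exact ⟨A, hA.1, hA.2.1, hA.2.2⟩
  have hA0 : 0 < A := by linarith
  -- the families
  set good : ℝ → Prop := fun κ => Continuous (gd κ 1) ∧ ∀ k ∈ Finset.range N, Continuous (gd κ ((k : ℝ) + 1)) with hgood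
  have hgd : ∀ᶠ κ : ℝ in 𝓝[>] 0, good κ := by
    filter_upwards [hgen1, hgen2] with κ k1 k2
    refine ⟨(k1.2.2.2 1 ⟨le_rfl, le_rfl⟩).1, fun k hk => ?_⟩
    have hk' : (k : ℝ) < N := by exact_mod_cast Finset.mem_range.1 hk
    have hk0 : (0 : ℝ) ≤ k := Nat.cast_nonneg k
    exact (k2.2.2.2 ((k : ℝ) + 1) ⟨by linarith, by linarith⟩).1
  set g : ℝ → ℝ → ℝ := fun κ y => if good κ then -gc N c κ y else 0 with hg
  set m : ℝ → ℝ → ℝ := fun κ y => if good κ then ∑ k ∈ Finset.range N, |c k| * gd κ ((k : ℝ) + 1) y else 0 with hm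
  set h : ℝ → ℝ → ℝ := fun κ y => if good κ then gd κ 1 y + 1 else 0 with hh
  have gcc : ∀ κ, good κ → Continuous (gc N c κ) := by
    intro κ hκ
    unfold gc
    exact continuous_finsetSum _ fun k hk => continuous_const.mul (hκ.2 k hk)
  have hgi : ∀ i a b, IntervalIntegrable (g i) volume a b := by
    intro i a b
    by_cases hi : good i
    · have : g i = fun y => -gc N c i y := by funext y; simp only [hg, if_pos hi]
      rw [this]
      exact ((gcc i hi).neg).intervalIntegrable a b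
    · have : g i = fun _ => (0 : ℝ) := by funext y; simp only [hg, if_neg hi]
      rw [this]
      exact continuous_const.intervalIntegrable a b
  have hmi : ∀ i a b, IntervalIntegrable (m i) volume a b := by
    intro i a b
    by_cases hi : good i
    · have : m i = fun y => ∑ k ∈ Finset.range N, |c k| * gd i ((k : ℝ) + 1) y := by
        funext y; simp only [hm, if_pos hi]
      rw [this]
      exact (continuous_finsetSum _ fun k hk => continuous_const.mul (hi.2 k hk)).intervalIntegrable a b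
    · have : m i = fun _ => (0 : ℝ) := by funext y; simp only [hm, if_neg hi]
      rw [this]
      exact continuous_const.intervalIntegrable a b
  have hhi : ∀ i a b, IntervalIntegrable (h i) volume a b := by
    intro i a b
    by_cases hi : good i
    · have : h i = fun y => gd i 1 y + 1 := by funext y; simp only [hh, if_pos hi]
      rw [this]
      exact (hi.1.add continuous_const).intervalIntegrable a b
    · have : h i = fun _ => (0 : ℝ) := by funext y; simp only [hh, if_neg hi]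
      rw [this]
      exact continuous_const.intervalIntegrable a b
  have hgm : ∀ i y, |g i y| ≤ m i y := by
    intro i y
    by_cases hi : good i
    · simp only [hg, hm, if_pos hi]
      rw [abs_neg]
      unfold gc
      refine (Finset.abs_sum_le_sum_abs _ _).trans (Finset.sum_le_sum fun k _ => ?_)
      rw [abs_mul, abs_of_nonneg (gd_nonneg _ _ _)]
    · simp only [hg, hm, if_neg hi, abs_zero, le_refl]
  have hh0 : ∀ i y, 0 ≤ h i y := by
    intro i y
    by_cases hi : good i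
    · simp only [hh, if_pos hi]
      have := gd_nonneg i 1 y
      linarith
    · simp only [hh, if_neg hi, le_refl]
  set M : ℝ := S * (C2 * (1 + A)) + (C1 * (1 + A) + A) with hM
  have hM0 : 0 ≤ M := by positivity
  have hsmall : ∀ᶠ κ : ℝ in 𝓝[>] 0, A ≤ 1 / κ ^ 2 := by
    filter_upwards [ev_pos, ev_le (c := 1 / (A + 1)) (by positivity)] with κ hκ hκ1
    rw [le_div_iff₀ (by positivity)] at hκ1 ⊢
    nlinarith
  have hmM : ∀ᶠ κ in l, ∫ y in (0 : ℝ)..A, m κ y ≤ M := by
    filter_upwards [hl hgen2, hl hgd, hl hsmall] with κ k1 k2 k3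
    have e : m κ = fun y => ∑ k ∈ Finset.range N, |c k| * gd κ ((k : ℝ) + 1) y := by
      funext y; simp only [hm, if_pos k2]
    have e' : (∫ y in (0 : ℝ)..A, m κ y) = ∑ k ∈ Finset.range N, ∫ y in (0 : ℝ)..A, |c k| * gd κ ((k : ℝ) + 1) y := by
      rw [e]
      exact intervalIntegral.integral_finsetSum fun k hk =>
        (continuous_const.mul (k2.2 k hk)).intervalIntegrable _ _
    rw [e']
    have h5 : ∀ k ∈ Finset.range N, ∫ y in (0 : ℝ)..A, |c k| * gd κ ((k : ℝ) + 1) y ≤ |c k| * (C2 * (1 + A)) := by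
      intro k hk
      have hk' : (k : ℝ) < N := by exact_mod_cast Finset.mem_range.1 hk
      have hk0 : (0 : ℝ) ≤ k := Nat.cast_nonneg k
      rw [intervalIntegral.integral_const_mul]
      exact mul_le_mul_of_nonneg_left ((k1.2.2.2 ((k : ℝ) + 1) ⟨by linarith, by linarith⟩).2.2.2 A hA0.le k3)
        (abs_nonneg _)
    refine (Finset.sum_le_sum h5).trans ?_
    rw [← Finset.sum_mul, ← hS, hM]
    have : 0 ≤ C1 * (1 + A) + A := by positivity
    linarith
  have hhM : ∀ᶠ κ in l, ∫ y in (0 : ℝ)..A, h κ y ≤ M := by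
    filter_upwards [hl hgen1, hl hgd, hl hsmall] with κ k1 k2 k3
    have e : h κ = fun y => gd κ 1 y + 1 := by funext y; simp only [hh, if_pos k2]
    rw [e, intervalIntegral.integral_add (k2.1.intervalIntegrable _ _) (continuous_const.intervalIntegrable _ _),
      intervalIntegral.integral_const, smul_eq_mul, mul_one, sub_zero]
    have h5 := (k1.2.2.2 1 ⟨le_rfl, le_rfl⟩).2.2.2 A hA0.le k3
    have : 0 ≤ S * (C2 * (1 + A)) := by positivity
    rw [hM]
    linarith
  have hkey : ∀ p q : ℝ, 0 ≤ p → p < q → q ≤ A → ∀ δ : ℝ, 0 < δ →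
      ∀ᶠ κ in l, -c0 * (q - p) - ε * (∫ y in p..q, h κ y) - δ ≤ ∫ y in p..q, g κ y := by
    intro p q hp hpq hqA δ hδ
    filter_upwards [hl hgd, hl (h3 hRH w R ε p q (δ / 2) N c hW hε hε1 hA hp hpq (by positivity)),
      hBX p q (δ / 2) hp hpq (by positivity)] with κ k1 k2 k3
    have e1 : g κ = fun y => -gc N c κ y := by funext y; simp only [hg, if_pos k1]
    have e2 : h κ = fun y => gd κ 1 y + 1 := by funext y; simp only [hh, if_pos k1]
    rw [e1, e2, intervalIntegral.integral_neg]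
    have h5 := (abs_le.1 k2).2
    have e3 : c0 * (q - p) = cc * (q - p) - w 0 / 4 * (q - p) := by rw [hc0]; ring
    nlinarith
  have hmain := h2 g m h (kk 1) A (-c0) ε M hA0 hε.le hM0 hgi hmi hhi hgm hh0 hmM hhM (kk_cont 1) hkey
    0 A le_rfl hA0 le_rfl (fun y _ => kk_nonneg 1 y) (η / 16) (by positivity)
  have hsq : ∀ᶠ κ : ℝ in 𝓝[>] 0, 5 * S * C2 * Real.sqrt κ ≤ η / 16 := by
    have t1 : Tendsto (fun κ : ℝ => 5 * S * C2 * Real.sqrt κ) (𝓝[>] 0) (𝓝 (5 * S * C2 * Real.sqrt 0)) :=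
      ((Real.continuous_sqrt.tendsto 0).mono_left nhdsWithin_le_nhds).const_mul _
    rw [Real.sqrt_zero, mul_zero] at t1
    exact t1.eventually (ge_mem_nhds (by positivity))
  filter_upwards [hmain, hl hgd, hl hgen1, hl hgen2, hl hsmall, hl hsq,
    hl (hWP w R ε (η / 16) N c hW hε (by positivity) hA)] with κ k1 k2 k3 k4 k5 k6 k7
  obtain ⟨hκ, hκ1, hL1, k3'⟩ := k3
  obtain ⟨-, -, -, k4'⟩ := k4
  have hLp : 0 < LL κ := by linarith
  set Q : ℝ := κ * LL κ ^ 2 with hQ
  have hQ0 : 0 < Q := by positivity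
  obtain ⟨g1c, g1i, g1t, g1m⟩ := k3' 1 ⟨le_rfl, le_rfl⟩
  have hsq1 : Real.sqrt κ ≤ 1 := by rw [Real.sqrt_le_one]; exact hκ1
  have e1 : g κ = fun y => -gc N c κ y := by funext y; simp only [hg, if_pos k2]
  have e2 : h κ = fun y => gd κ 1 y + 1 := by funext y; simp only [hh, if_pos k2]
  rw [e1, e2] at k1
  have e3 : (∫ y in (0 : ℝ)..A, kk 1 y * -gc N c κ y) = -∫ y in (0 : ℝ)..A, kk 1 y * gc N c κ y := by
    rw [← intervalIntegral.integral_neg]
    exact intervalIntegral.integral_congr fun y _ => by simp only [mul_neg]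
  rw [e3] at k1
  -- integrability on the half line
  have hkd : ∀ k ∈ Finset.range N, Integrable (fun y => kk 1 y * gd κ ((k : ℝ) + 1) y) := by
    intro k hk
    have hk' : (k : ℝ) < N := by exact_mod_cast Finset.mem_range.1 hk
    have hk0 : (0 : ℝ) ≤ k := Nat.cast_nonneg k
    obtain ⟨h5, h6, -, -⟩ := k4' ((k : ℝ) + 1) ⟨by linarith, by linarith⟩
    exact gd_integrable (kk_cont 1) h5 (fun y => by
      rw [abs_of_nonneg (kk_nonneg 1 y)]; exact kk_le 1 y) h6
  have hkd1 : Integrable (fun y => kk 1 y * gd κ 1 y) :=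
    gd_integrable (kk_cont 1) g1c (fun y => by rw [abs_of_nonneg (kk_nonneg 1 y)]; exact kk_le 1 y) g1i
  have ekg : (fun y => kk 1 y * gc N c κ y) = fun y => ∑ k ∈ Finset.range N, c k * (kk 1 y * gd κ ((k : ℝ) + 1) y) := by
    funext y
    unfold gc
    rw [Finset.mul_sum]
    exact Finset.sum_congr rfl fun k _ => by ring
  have hkg : Integrable (fun y => kk 1 y * gc N c κ y) := by
    rw [ekg]
    exact integrable_finsetSum _ fun k hk => (hkd k hk).const_mul _
  have hsplit : ∫ y in Ioi (0 : ℝ), kk 1 y * gc N c κ y =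
      (∫ y in (0 : ℝ)..A, kk 1 y * gc N c κ y) + ∫ y in Ioi A, kk 1 y * gc N c κ y := by
    rw [intervalIntegral.integral_of_le hA0.le, ← setIntegral_union (Ioc_disjoint_Ioi le_rfl) measurableSet_Ioi
      hkg.integrableOn hkg.integrableOn, Ioc_union_Ioi_eq_Ioi hA0.le]
  have htail : ∫ y in Ioi A, kk 1 y * gc N c κ y ≤ η / 8 := by
    have h5 : ∀ k ∈ Finset.range N, c k * ∫ y in Ioi A, kk 1 y * gd κ ((k : ℝ) + 1) y ≤
        |c k| * (5 * (C2 * (1 / (1 + A) + Real.sqrt κ))) := by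
      intro k hk
      have hk' : (k : ℝ) < N := by exact_mod_cast Finset.mem_range.1 hk
      have hk0 : (0 : ℝ) ≤ k := Nat.cast_nonneg k
      obtain ⟨h5, h6, h7, -⟩ := k4' ((k : ℝ) + 1) ⟨by linarith, by linarith⟩
      have h8 : 0 ≤ ∫ y in Ioi A, kk 1 y * gd κ ((k : ℝ) + 1) y :=
        setIntegral_nonneg measurableSet_Ioi fun y _ => mul_nonneg (kk_nonneg 1 y) (gd_nonneg _ _ _)
      have h9 : ∫ y in Ioi A, kk 1 y * gd κ ((k : ℝ) + 1) y ≤
          5 * ∫ y in Ioi A, gd κ ((k : ℝ) + 1) y / (1 + y ^ 2) := by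
        rw [← integral_const_mul]
        refine setIntegral_mono_on (hkd k hk).integrableOn (h6.const_mul _).integrableOn measurableSet_Ioi
          fun y _ => ?_
        calc kk 1 y * gd κ ((k : ℝ) + 1) y ≤ ((1 : ℝ) ^ 2 + 4) * (1 / (1 + y ^ 2)) * gd κ ((k : ℝ) + 1) y :=
              mul_le_mul_of_nonneg_right (kk_le 1 y) (gd_nonneg _ _ _)
          _ = _ := by ring
      have h10 := h7 A hA0.le k5
      calc c k * ∫ y in Ioi A, kk 1 y * gd κ ((k : ℝ) + 1) y ≤ |c k| * ∫ y in Ioi A, kk 1 y * gd κ ((k : ℝ) + 1) y :=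
            mul_le_mul_of_nonneg_right (le_abs_self _) h8
        _ ≤ |c k| * (5 * (C2 * (1 / (1 + A) + Real.sqrt κ))) :=
            mul_le_mul_of_nonneg_left (h9.trans (by linarith)) (abs_nonneg _)
    rw [ekg, integral_finsetSum _ fun k hk => ((hkd k hk).const_mul _).integrableOn]
    simp only [integral_const_mul]
    refine (Finset.sum_le_sum h5).trans ?_
    rw [← Finset.sum_mul, ← hS]
    have e5 : S * (5 * (C2 * (1 / (1 + A) + Real.sqrt κ))) = 5 * S * C2 * (1 / (1 + A)) + 5 * S * C2 * Real.sqrt κ := by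
      ring
    rw [e5]
    linarith
  -- the error term with `ε`
  have herr : ∫ y in (0 : ℝ)..A, kk 1 y * (gd κ 1 y + 1) ≤ 10 * C1 + Real.pi := by
    have h5 : ∫ y in (0 : ℝ)..A, kk 1 y * (gd κ 1 y + 1) ≤ ∫ y in Ioi (0 : ℝ), (kk 1 y * gd κ 1 y + kk 1 y) := by
      rw [intervalIntegral.integral_of_le hA0.le]
      have e6 : ∀ y, kk 1 y * (gd κ 1 y + 1) = kk 1 y * gd κ 1 y + kk 1 y := fun y => by ring
      simp only [e6]
      refine setIntegral_mono_set (hkd1.integrableOn.add kk_one_int.1) (ae_of_all _ fun y => ?_)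
        (ae_of_all _ Ioc_subset_Ioi_self)
      exact add_nonneg (mul_nonneg (kk_nonneg 1 y) (gd_nonneg _ _ _)) (kk_nonneg 1 y)
    have h6 : ∫ y in Ioi (0 : ℝ), (kk 1 y * gd κ 1 y + kk 1 y) = (∫ y in Ioi (0 : ℝ), kk 1 y * gd κ 1 y) + Real.pi := by
      rw [integral_add hkd1.integrableOn kk_one_int.1, kk_one_int.2]
    have h7 : ∫ y in Ioi (0 : ℝ), kk 1 y * gd κ 1 y ≤ 5 * ∫ y in Ioi (0 : ℝ), gd κ 1 y / (1 + y ^ 2) := by
      rw [← integral_const_mul]
      refine setIntegral_mono_on hkd1.integrableOn (g1i.const_mul _).integrableOn measurableSet_Ioi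
        fun y _ => ?_
      calc kk 1 y * gd κ 1 y ≤ ((1 : ℝ) ^ 2 + 4) * (1 / (1 + y ^ 2)) * gd κ 1 y :=
            mul_le_mul_of_nonneg_right (kk_le 1 y) (gd_nonneg _ _ _)
        _ = _ := by ring
    have h8 := g1t 0 le_rfl (by positivity)
    have h9 : C1 * (1 / (1 + 0) + Real.sqrt κ) ≤ C1 * 2 := by
      apply mul_le_mul_of_nonneg_left _ hC1.le
      norm_num
      linarith
    linarith
  -- the bound of the whole integral
  have hc0K : c0 * ∫ y in (0 : ℝ)..A, kk 1 y ≤ c0 * Real.pi + η / 16 := by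
    have h5 : -(c0 * (Real.pi - ∫ y in (0 : ℝ)..A, kk 1 y)) ≤ |c0| * |Real.pi - ∫ y in (0 : ℝ)..A, kk 1 y| := by
      rw [← abs_mul]
      exact neg_le_abs _
    linarith
  have hεe : ε * (∫ y in (0 : ℝ)..A, kk 1 y * (gd κ 1 y + 1)) ≤ ε * (10 * C1 + Real.pi) :=
    mul_le_mul_of_nonneg_left herr hε.le
  have hεD' : ε * (10 * C1 + Real.pi) + C * ε ≤ η / 8 := by
    have : ε * D = ε * (10 * C1 + Real.pi) + C * ε := by rw [hD]; ring
    linarith
  have hCε : 0 ≤ C * ε := by positivity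
  have hall : ∫ y in Ioi (0 : ℝ), kk 1 y * gc N c κ y ≤ c0 * Real.pi + (η / 8 - C * ε) + η / 4 := by
    rw [hsplit]
    linarith
  have h7 := (abs_le.1 k7).2
  have h8 : 2 / Real.pi * (Q * ∫ y in Ioi (0 : ℝ), kk 1 y * gc N c κ y) ≤
      2 / Real.pi * (Q * (c0 * Real.pi + (η / 8 - C * ε) + η / 4)) := by gcongr
  have h9 : 2 / Real.pi * (Q * (c0 * Real.pi + (η / 8 - C * ε) + η / 4)) ≤
      Q * (2 * c0 + ((η / 8 - C * ε) + η / 4)) := by
    have e5 : 2 / Real.pi * (Q * (c0 * Real.pi + (η / 8 - C * ε) + η / 4)) =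
        Q * (2 * c0) + 2 / Real.pi * (Q * ((η / 8 - C * ε) + η / 4)) := by
      field_simp
      ring
    have h10 : 2 / Real.pi ≤ 1 := by
      rw [div_le_one Real.pi_pos]; linarith [Real.pi_gt_three]
    have h11 : 0 ≤ ε * (10 * C1 + Real.pi) := by positivity
    have h12 : 0 ≤ Q * ((η / 8 - C * ε) + η / 4) := mul_nonneg hQ0.le (by linarith)
    rw [e5]
    have h13 := mul_le_mul_of_nonneg_right h10 h12
    linarith
  have h14 : WVg w κ ≤ Q * (2 * c0 + ((η / 8 - C * ε) + η / 4)) + (C * ε + η / 16) * Q := by linarith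
  refine h14.trans ?_
  have e6 : Q * (2 * c0 + ((η / 8 - C * ε) + η / 4)) + (C * ε + η / 16) * Q =
      Q * (2 * cc - w 0 / 2 + (η / 8 + η / 4 + η / 16)) := by rw [hc0]; ring
  rw [e6]
  apply mul_le_mul_of_nonneg_left _ hQ0.le
  linarith

end Pool.Agent.Q65.AH
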