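import Pool.Agent.Q260.AH.Dg

set_option autoImplicit false

/-!
# Job GW-WAg of project GW: Weierstrass approximation of a weight by exponentials
-/

namespace Pool.Agent.Q65.AH

open MeasureTheory Filter Topology Set Pool.Agent.Q260.AH

/-- The weight in the variable `y = exp (-2 α)`, divided by `y`. -/
noncomputable def fyg (w : ℝ → ℝ) (R y : ℝ) : ℝ :=
  w (-(Real.log (max y (Real.exp (-(2 * R)))) / 2)) / max y (Real.exp (-(2 * R)))

theorem fyg_cont {w : ℝ → ℝ} (hw : Continuous w) (R : ℝ) : Continuous (fyg w R) := by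
  unfold fyg
  have hpos : ∀ y : ℝ, max y (Real.exp (-(2 * R))) ≠ 0 := fun y =>
    (lt_of_lt_of_le (Real.exp_pos _) (le_max_right _ _)).ne'
  have hc : Continuous fun y : ℝ => max y (Real.exp (-(2 * R))) := continuous_id.max continuous_const
  exact (hw.comp ((hc.log hpos).div_const 2).neg).div hc hpos

theorem fyg_exp {w : ℝ → ℝ} {R α : ℝ} (hW : Wok w R) :
    Real.exp (-(2 * α)) * fyg w R (Real.exp (-(2 * α))) = w α := by
  unfold fyg
  by_cases h : α ≤ R
  · have h1 : Real.exp (-(2 * R)) ≤ Real.exp (-(2 * α)) := Real.exp_le_exp.2 (by linarith)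
    rw [max_eq_left h1, Real.log_exp, mul_div_cancel₀]
    · congr 1; ring
    · exact (Real.exp_pos _).ne'
  · have h1 : Real.exp (-(2 * α)) ≤ Real.exp (-(2 * R)) := Real.exp_le_exp.2 (by linarith [not_le.1 h])
    rw [max_eq_right h1, Real.log_exp, hW.2.2 α (not_le.1 h).le]
    have h2 : w (-(-(2 * R) / 2)) = 0 := by
      rw [show -(-(2 * R) / 2) = R by ring]
      exact hW.2.2 R le_rfl
    rw [h2]
    simp

theorem t_WAg : S_WAg := by
  intro w R ε hW hε
  obtain ⟨p, hp⟩ := exists_polynomial_near_of_continuousOn 0 1 (fyg w R) (fyg_cont hW.2.1 R).continuousOn ε hε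
  refine ⟨p.natDegree + 1, fun k => p.coeff k, fun α hα => ?_⟩
  set y : ℝ := Real.exp (-(2 * α)) with hy
  have hy0 : 0 < y := Real.exp_pos _
  have hy1 : y ≤ 1 := Real.exp_le_one_iff.2 (by linarith)
  have h1 := hp y ⟨hy0.le, hy1⟩
  have h2 : (∑ k ∈ Finset.range (p.natDegree + 1), p.coeff k * Real.exp (-(2 * (k + 1) * α))) = y * p.eval y := by
    rw [Polynomial.eval_eq_sum_range, Finset.mul_sum]
    refine Finset.sum_congr rfl fun k _ => ?_
    have : Real.exp (-(2 * ((k : ℝ) + 1) * α)) = y ^ (k + 1) := by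
      rw [hy, ← Real.exp_nat_mul]; congr 1; push_cast; ring
    rw [this]; ring
  rw [h2, ← fyg_exp hW, ← hy, ← mul_sub, abs_mul, abs_of_pos hy0, mul_comm ε]
  exact mul_le_mul_of_nonneg_left h1.le hy0.le

end Pool.Agent.Q65.AH
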