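import Pool.Agent.Q260.AH.Dg

set_option autoImplicit false

/-!
# Job GW-WPg of project GW: from the side of the primes to `gc`
-/

namespace Pool.Agent.Q65.AH

open MeasureTheory Filter Topology Set Pool.Agent.Q260.AH
open Pool.Agent.Q260.GM (gd gd_nonneg LL kk Dl L2psi SS Dl_sq_int SS_bdd T1b ev_gen ev_pos ev_L kk_le kk_nonneg
  kk_cont gd_integrable)
open Pool.Agent.Q213.GM (Dl_meas)

/-- the error of the approximation, integrated -/
theorem wv_approx (hL2 : L2psi) {w : ℝ → ℝ} (hw : Continuous w) {ε : ℝ} {N : ℕ}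
    {c : ℕ → ℝ} (hA : Apw w ε N c) {κ : ℝ} (hκ : 0 < κ) (hL : 0 < LL κ) :
    IntegrableOn (fun u => w (u / LL κ) * Dl κ u ^ 2) (Ioi 0) ∧
    |(∑ k ∈ Finset.range N, c k * SS κ ((k + 1) / LL κ)) - WVg w κ| ≤ ε * SS κ (1 / LL κ) := by
  have hi : ∀ k : ℕ, IntegrableOn (fun u => Dl κ u ^ 2 * Real.exp (-(2 * (((k : ℝ) + 1) / LL κ) * u))) (Ioi 0) :=
    fun k => Dl_sq_int hL2 hκ (by positivity)
  have hi1 : IntegrableOn (fun u => Dl κ u ^ 2 * Real.exp (-(2 * (1 / LL κ) * u))) (Ioi 0) :=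
    Dl_sq_int hL2 hκ (by positivity)
  set S : ℝ → ℝ := fun u => ∑ k ∈ Finset.range N,
    c k * (Dl κ u ^ 2 * Real.exp (-(2 * (((k : ℝ) + 1) / LL κ) * u))) with hS
  have hSi : IntegrableOn S (Ioi 0) := integrable_finsetSum _ fun k _ => (hi k).const_mul (c k)
  have hSe : ∀ u : ℝ, S u = Dl κ u ^ 2 *
      ∑ k ∈ Finset.range N, c k * Real.exp (-(2 * ((k : ℝ) + 1) * (u / LL κ))) := by
    intro u
    rw [hS, Finset.mul_sum]
    refine Finset.sum_congr rfl fun k _ => ?_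
    rw [show (2 * (((k : ℝ) + 1) / LL κ) * u) = 2 * ((k : ℝ) + 1) * (u / LL κ) by ring]
    ring
  have hb : ∀ u ∈ Ioi (0 : ℝ), |S u - w (u / LL κ) * Dl κ u ^ 2| ≤
      ε * (Dl κ u ^ 2 * Real.exp (-(2 * (1 / LL κ) * u))) := by
    intro u hu
    have hu0 : 0 ≤ u / LL κ := div_nonneg (le_of_lt hu) hL.le
    have h1 := hA (u / LL κ) hu0
    rw [hSe u, show Dl κ u ^ 2 * (∑ k ∈ Finset.range N, c k * Real.exp (-(2 * ((k : ℝ) + 1) * (u / LL κ)))) -
      w (u / LL κ) * Dl κ u ^ 2 = Dl κ u ^ 2 * ((∑ k ∈ Finset.range N, c k * Real.exp (-(2 * ((k : ℝ) + 1) *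
      (u / LL κ)))) - w (u / LL κ)) by ring, abs_mul, abs_of_nonneg (sq_nonneg (Dl κ u)),
      show ε * (Dl κ u ^ 2 * Real.exp (-(2 * (1 / LL κ) * u))) = Dl κ u ^ 2 * (ε * Real.exp (-(2 * (u / LL κ)))) by
        rw [show 2 * (1 / LL κ) * u = 2 * (u / LL κ) by ring]; ring]
    exact mul_le_mul_of_nonneg_left h1 (sq_nonneg _)
  have hm : Measurable fun u => w (u / LL κ) * Dl κ u ^ 2 :=
    (hw.measurable.comp (measurable_id.div_const _)).mul ((Dl_meas κ).pow_const 2)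
  have hd : IntegrableOn (fun u => S u - w (u / LL κ) * Dl κ u ^ 2) (Ioi 0) := by
    refine (hi1.const_mul ε).mono' (hSi.aestronglyMeasurable.sub hm.aestronglyMeasurable) ?_
    refine (ae_restrict_iff' measurableSet_Ioi).2 (ae_of_all _ fun u hu => ?_)
    rw [Real.norm_eq_abs]
    exact hb u hu
  have hwi : IntegrableOn (fun u => w (u / LL κ) * Dl κ u ^ 2) (Ioi 0) := by
    have h2 := hSi.sub hd
    refine h2.congr (ae_of_all _ fun u => ?_)
    simp only [Pi.sub_apply]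
    ring
  refine ⟨hwi, ?_⟩
  have e1 : (∑ k ∈ Finset.range N, c k * SS κ ((k + 1) / LL κ)) = ∫ u in Ioi (0 : ℝ), S u := by
    rw [hS, integral_finsetSum _ fun k _ => (hi k).const_mul (c k)]
    refine Finset.sum_congr rfl fun k _ => ?_
    rw [integral_const_mul]
    rfl
  have e2 : (∫ u in Ioi (0 : ℝ), S u) - WVg w κ = ∫ u in Ioi (0 : ℝ), (S u - w (u / LL κ) * Dl κ u ^ 2) := by
    unfold WVg
    rw [← integral_sub hSi hwi]
  rw [e1, e2]
  have e3 : ε * SS κ (1 / LL κ) = ∫ u in Ioi (0 : ℝ), ε * (Dl κ u ^ 2 * Real.exp (-(2 * (1 / LL κ) * u))) := by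
    rw [integral_const_mul]
    rfl
  rw [e3]
  refine (abs_integral_le_integral_abs).trans ?_
  exact setIntegral_mono_on hd.abs (hi1.const_mul ε) measurableSet_Ioi hb

/-- the pairing of `kk 1` with `gc` -/
theorem kk_gc_int (hRH : RiemannHypothesis) (N : ℕ) (c : ℕ → ℝ) : ∀ᶠ κ : ℝ in 𝓝[>] 0,
    ∫ y in Ioi (0 : ℝ), kk 1 y * gc N c κ y =
      ∑ k ∈ Finset.range N, c k * ∫ y in Ioi (0 : ℝ), kk 1 y * gd κ (k + 1) y := by
  obtain ⟨C, hC, hgen⟩ := ev_gen hRH (a1 := 1) (a2 := (N : ℝ) + 1) one_pos (by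
    have : (0 : ℝ) ≤ N := Nat.cast_nonneg N
    linarith)
  filter_upwards [hgen] with κ hκ
  obtain ⟨h0, h1, h2, h3⟩ := hκ
  have hint : ∀ k ∈ Finset.range N, IntegrableOn (fun y => c k * (kk 1 y * gd κ (k + 1) y)) (Ioi 0) := by
    intro k hk
    have hk' : (k : ℝ) < N := by exact_mod_cast Finset.mem_range.1 hk
    have hk0 : (0 : ℝ) ≤ k := Nat.cast_nonneg k
    obtain ⟨h4, h5, -, -⟩ := h3 ((k : ℝ) + 1) ⟨by linarith, by linarith⟩
    exact ((gd_integrable (kk_cont 1) h4 (fun y => by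
      rw [abs_of_nonneg (kk_nonneg 1 y)]; exact kk_le 1 y) h5).const_mul (c k)).integrableOn
  have e : ∀ y : ℝ, kk 1 y * gc N c κ y = ∑ k ∈ Finset.range N, c k * (kk 1 y * gd κ (k + 1) y) := by
    intro y
    unfold gc
    rw [Finset.mul_sum]
    exact Finset.sum_congr rfl fun k _ => by ring
  simp only [e]
  rw [integral_finsetSum _ hint]
  exact Finset.sum_congr rfl fun k _ => by rw [integral_const_mul]

theorem t_WPg : S_WPg := by
  intro hRH hL2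
  obtain ⟨C, hC, hS⟩ := SS_bdd hRH hL2 (a1 := 1) (a2 := 1) one_pos le_rfl (lam := 1) one_pos
  refine ⟨C, hC, fun w R ε δ N c hW hε hδ hA => ?_⟩
  set M : ℝ := 1 + ∑ k ∈ Finset.range N, |c k| with hM
  have hM0 : 0 < M := by
    have : 0 ≤ ∑ k ∈ Finset.range N, |c k| := Finset.sum_nonneg fun k _ => abs_nonneg _
    linarith
  have hN1 : (1 : ℝ) ≤ (N : ℝ) + 1 := by
    have : (0 : ℝ) ≤ N := Nat.cast_nonneg N
    linarith
  filter_upwards [hS, T1b hRH hL2 (a1 := 1) (a2 := (N : ℝ) + 1) one_pos hN1 (lam := 1) one_pos (ε := δ / M)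
    (by positivity), kk_gc_int hRH N c, ev_pos, ev_L 1] with κ h1 h2 h3 hκ hL
  have hLp : 0 < LL κ := by linarith
  have hQ : 0 ≤ κ * LL κ ^ 2 := by positivity
  have h4 := (wv_approx hL2 hW.2.1 hA hκ hLp).2
  have h5 := h1 1 ⟨le_rfl, le_rfl⟩
  rw [one_mul] at h5
  rw [h3]
  have h6 : ∀ k ∈ Finset.range N, |c k * SS κ ((k + 1) / LL κ) - c k * (2 / Real.pi * (κ * LL κ ^ 2 *
      ∫ y in Ioi (0 : ℝ), kk 1 y * gd κ (k + 1) y))| ≤ |c k| * (δ / M * (κ * LL κ ^ 2)) := by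
    intro k hk
    have hk' : (k : ℝ) < N := by exact_mod_cast Finset.mem_range.1 hk
    have hk0 : (0 : ℝ) ≤ k := Nat.cast_nonneg k
    have h7 := h2 ((k : ℝ) + 1) ⟨by linarith, by linarith⟩
    rw [one_mul] at h7
    rw [← mul_sub, abs_mul]
    exact mul_le_mul_of_nonneg_left h7 (abs_nonneg _)
  have h8 : |(∑ k ∈ Finset.range N, c k * SS κ ((k + 1) / LL κ)) - 2 / Real.pi * (κ * LL κ ^ 2 *
      ∑ k ∈ Finset.range N, c k * ∫ y in Ioi (0 : ℝ), kk 1 y * gd κ (k + 1) y)| ≤ δ * (κ * LL κ ^ 2) := by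
    have e : 2 / Real.pi * (κ * LL κ ^ 2 *
      ∑ k ∈ Finset.range N, c k * ∫ y in Ioi (0 : ℝ), kk 1 y * gd κ (k + 1) y) =
      ∑ k ∈ Finset.range N, c k * (2 / Real.pi * (κ * LL κ ^ 2 *
      ∫ y in Ioi (0 : ℝ), kk 1 y * gd κ (k + 1) y)) := by
      rw [Finset.mul_sum, Finset.mul_sum]
      exact Finset.sum_congr rfl fun k _ => by ring
    rw [e, ← Finset.sum_sub_distrib]
    refine (Finset.abs_sum_le_sum_abs _ _).trans ((Finset.sum_le_sum h6).trans ?_)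
    rw [← Finset.sum_mul]
    have h9 : (∑ k ∈ Finset.range N, |c k|) ≤ M := by linarith
    calc (∑ k ∈ Finset.range N, |c k|) * (δ / M * (κ * LL κ ^ 2)) ≤ M * (δ / M * (κ * LL κ ^ 2)) :=
          mul_le_mul_of_nonneg_right h9 (by positivity)
      _ = δ * (κ * LL κ ^ 2) := by field_simp
  have h10 : ε * SS κ (1 / LL κ) ≤ C * ε * (κ * LL κ ^ 2) := by
    calc ε * SS κ (1 / LL κ) ≤ ε * (C * (κ * LL κ ^ 2)) := mul_le_mul_of_nonneg_left h5 hε.le
      _ = _ := by ring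
  have h11 := abs_sub_le (WVg w κ) (∑ k ∈ Finset.range N, c k * SS κ ((k + 1) / LL κ))
    (2 / Real.pi * (κ * LL κ ^ 2 * ∑ k ∈ Finset.range N, c k * ∫ y in Ioi (0 : ℝ), kk 1 y * gd κ (k + 1) y))
  rw [abs_sub_comm (WVg w κ) (∑ k ∈ Finset.range N, c k * SS κ ((k + 1) / LL κ))] at h11
  have h12 := h4.trans h10
  have e : (C * ε + δ) * (κ * LL κ ^ 2) = C * ε * (κ * LL κ ^ 2) + δ * (κ * LL κ ^ 2) := by ring
  rw [e]
  linarith

end Pool.Agent.Q65.AH
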